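import Pool.Agent.Lib.H39L.K

/-!
# The core inequality for `Iso0` (MP_5a30bb)
-/

set_option autoImplicit false

namespace H39L

open Finset Equiv Pool.Agent.H69Hopf H7HB

variable {n : ℕ} {ι : Type} {w : ι → Fin (2 * n) → Fin (2 * n) → ℝ} {p q : Fin (2 * n)}

theorem term_le0 [Fintype ι] [DecidableEq ι] (h : Iso0 w p q)
    (hK : ∀ x y, vv (mm p q) x y ^ 2 ≤ ∑ k, vv (w k) x y ^ 2) {i : Fin n} {κ : Fin n → ι} (hne : hh w p q i κ ≠ 0) :
    hh w p q i κ ^ 2 ≤ ∑ x, (mp (fun s => w (Function.update κ i x s)) /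
      ((univ.filter fun s => Function.update κ i x s = Function.update κ i x i).card : ℝ)) ^ 2 := by
  obtain ⟨u, v, hup, huq, hvp, hvq, he⟩ := term_eq0 h hne
  rw [he]
  have h1 := hK (Pi.single p 1 + u) (Pi.single q 1 + v)
  rw [vv_mm h.ne hup huq hvp hvq] at h1
  nlinarith [sq_nonneg (hh w p q i κ)]

theorem indep_pq0 {N : ℕ} {p q : Fin N} (hpq : p ≠ q) {u v : Fin N → ℝ} (hu : u p = 0) (hu' : u q = 0)
    (hv : v p = 0) (hv' : v q = 0) :
    LinearIndependent ℝ ![(Pi.single p 1 + u : Fin N → ℝ), Pi.single q 1 + v] := by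
  rw [LinearIndependent.pair_iff]
  intro s t hst
  have h1 := congrFun hst p
  have h2 := congrFun hst q
  simp only [Pi.add_apply, Pi.smul_apply, smul_eq_mul, Pi.single_eq_same, Pi.zero_apply, hu, hu', hv, hv',
    Pi.single_eq_of_ne hpq, Pi.single_eq_of_ne hpq.symm] at h1 h2
  constructor
  · linarith
  · linarith

theorem term_lt0 [Fintype ι] [DecidableEq ι] (h : Iso0 w p q)
    (hK : ∀ x y : Fin (2 * n) → ℝ, LinearIndependent ℝ ![x, y] → vv (mm p q) x y ^ 2 < ∑ k, vv (w k) x y ^ 2)
    {i : Fin n} {κ : Fin n → ι} (hne : hh w p q i κ ≠ 0) :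
    hh w p q i κ ^ 2 < ∑ x, (mp (fun s => w (Function.update κ i x s)) /
      ((univ.filter fun s => Function.update κ i x s = Function.update κ i x i).card : ℝ)) ^ 2 := by
  obtain ⟨u, v, hup, huq, hvp, hvq, he⟩ := term_eq0 h hne
  rw [he]
  have h1 := hK (Pi.single p 1 + u) (Pi.single q 1 + v) (indep_pq0 h.ne hup huq hvp hvq)
  rw [vv_mm h.ne hup huq hvp hvq] at h1
  have h2 : 0 < hh w p q i κ ^ 2 := by positivity
  nlinarith

/-- PROOF: let `a, b` be slots with `hh w p q a κ ≠ 0` and `hh w p q b κ ≠ 0`. By `hh_slot` at `a`: `hh w p q b κ` is not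
zero only if `κ b = κ a`. So all slots `b` with `hh ≠ 0` are in `{s | κ s = κ a}` and the number of the good slots is at
most this card. -/
theorem good_le0 [DecidableEq ι] (h : Iso0 w p q) (κ : Fin n → ι) :
    ∑ i, (if hh w p q i κ ≠ 0 then (1 / ((univ.filter fun s => κ s = κ i).card : ℝ)) ^ 2 else 0) ≤ 1 := by
  classical
  by_cases hex : ∃ a, hh w p q a κ ≠ 0
  · obtain ⟨a, ha⟩ := hex
    have hN : 0 < (univ.filter fun s => κ s = κ a).card :=
      Finset.card_pos.mpr ⟨a, by simp⟩
    set N : ℕ := (univ.filter fun s => κ s = κ a).card with hNdef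
    have hNr : (1 : ℝ) ≤ N := by exact_mod_cast hN
    have hle : ∀ i ∈ (univ : Finset (Fin n)),
        (if hh w p q i κ ≠ 0 then (1 / ((univ.filter fun s => κ s = κ i).card : ℝ)) ^ 2 else 0) ≤
          (if κ i = κ a then (1 / (N : ℝ)) ^ 2 else 0) := by
      intro i _
      by_cases hi : hh w p q i κ ≠ 0
      · have hia : κ i = κ a := by
          by_contra hc
          apply hi
          rw [hh_slot0 h.iso ha i, if_neg hc]
        rw [if_pos hi, if_pos hia, hia]
      · rw [if_neg hi]
        split_ifs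
        · positivity
        · exact le_refl _
    calc ∑ i, (if hh w p q i κ ≠ 0 then (1 / ((univ.filter fun s => κ s = κ i).card : ℝ)) ^ 2 else 0)
        ≤ ∑ i, (if κ i = κ a then (1 / (N : ℝ)) ^ 2 else 0) := Finset.sum_le_sum hle
      _ = (N : ℝ) * (1 / (N : ℝ)) ^ 2 := by
          rw [← Finset.sum_filter, Finset.sum_const, nsmul_eq_mul]
      _ = 1 / (N : ℝ) := by
          have : (N : ℝ) ≠ 0 := by linarith
          field_simp
      _ ≤ 1 := by
          rw [div_le_one (by linarith)]
          exact hNr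
  · push Not at hex
    have : ∑ i, (if hh w p q i κ ≠ 0 then (1 / ((univ.filter fun s => κ s = κ i).card : ℝ)) ^ 2 else 0) = 0 := by
      apply Finset.sum_eq_zero
      intro i _
      rw [if_neg]
      intro hc
      exact hc (hex i)
    rw [this]
    exact zero_le_one

/-- Every family of indices comes from `card ι` pairs. -/
theorem sum_update0 [Fintype ι] [DecidableEq ι] (i : Fin n) (F : (Fin n → ι) → ℝ) :
    ∑ κ : Fin n → ι, ∑ x : ι, F (Function.update κ i x) = (Fintype.card ι : ℝ) * ∑ κ : Fin n → ι, F κ := by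
  let e : ((Fin n → ι) × ι) ≃ ((Fin n → ι) × ι) :=
    { toFun := fun r => (Function.update r.1 i r.2, r.1 i)
      invFun := fun r => (Function.update r.1 i r.2, r.1 i)
      left_inv := fun r => by
        refine Prod.ext ?_ ?_
        · simp only [Function.update_idem, Function.update_eq_self]
        · simp only [Function.update_self]
      right_inv := fun r => by
        refine Prod.ext ?_ ?_
        · simp only [Function.update_idem, Function.update_eq_self]
        · simp only [Function.update_self] }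
  have h1 : ∑ κ : Fin n → ι, ∑ x : ι, F (Function.update κ i x) = ∑ r : (Fin n → ι) × ι, F (e r).1 := by
    rw [Fintype.sum_prod_type]
    exact Finset.sum_congr rfl fun κ _ => Finset.sum_congr rfl fun x _ => rfl
  rw [h1, Equiv.sum_comp e (fun r : (Fin n → ι) × ι => F r.1), Fintype.sum_prod_type]
  simp only [Finset.sum_const, Finset.card_univ, nsmul_eq_mul]
  rw [Finset.mul_sum]

/-- THE CORE INEQUALITY (`h` and `mp` as functions of all `κ : Fin n → ι`, hence the factor `card ι`).
PROOF: `term_le`; `Σ_κ [hh i κ ≠ 0] Σ_x G (update κ i x) = card ι * Σ_κ [hh i κ ≠ 0] G κ` (`hh_update`; every `κ'` is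
`update κ i x` for `card ι` pairs: `x = κ' i`, `κ = update κ' i y`); then sum over `i` and `good_le`. -/
theorem core0 [Fintype ι] [DecidableEq ι] (h : Iso0 w p q)
    (hK : ∀ x y, vv (mm p q) x y ^ 2 ≤ ∑ k, vv (w k) x y ^ 2) :
    ∑ i, ∑ κ : Fin n → ι, hh w p q i κ ^ 2 ≤ (Fintype.card ι : ℝ) * ∑ κ : Fin n → ι, mp (fun s => w (κ s)) ^ 2 := by
  have h1 : ∀ i : Fin n, ∑ κ : Fin n → ι, hh w p q i κ ^ 2 ≤
      (Fintype.card ι : ℝ) * ∑ κ : Fin n → ι, (if hh w p q i κ ≠ 0 then
        (mp (fun s => w (κ s)) / ((univ.filter fun s => κ s = κ i).card : ℝ)) ^ 2 else 0) := by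
    intro i
    rw [← sum_update0 i (fun κ : Fin n → ι => if hh w p q i κ ≠ 0 then
        (mp (fun s => w (κ s)) / ((univ.filter fun s => κ s = κ i).card : ℝ)) ^ 2 else 0)]
    apply Finset.sum_le_sum
    intro κ _
    by_cases hi : hh w p q i κ ≠ 0
    · refine le_trans (term_le0 h hK hi) (le_of_eq ?_)
      apply Finset.sum_congr rfl
      intro x _
      have hx : hh w p q i (Function.update κ i x) ≠ 0 := by
        rw [hh_update]
        exact hi
      rw [if_pos hx]
    · have h0 : hh w p q i κ = 0 := by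
        by_contra hc
        exact hi hc
      rw [h0]
      have : (0 : ℝ) ^ 2 = 0 := by norm_num
      rw [this]
      apply Finset.sum_nonneg
      intro x _
      split_ifs
      · positivity
      · exact le_refl _
  calc ∑ i, ∑ κ : Fin n → ι, hh w p q i κ ^ 2
      ≤ ∑ i : Fin n, (Fintype.card ι : ℝ) * ∑ κ : Fin n → ι, (if hh w p q i κ ≠ 0 then
        (mp (fun s => w (κ s)) / ((univ.filter fun s => κ s = κ i).card : ℝ)) ^ 2 else 0) :=
        Finset.sum_le_sum fun i _ => h1 i
    _ = (Fintype.card ι : ℝ) * ∑ κ : Fin n → ι, ∑ i : Fin n, (if hh w p q i κ ≠ 0 then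
        (mp (fun s => w (κ s)) / ((univ.filter fun s => κ s = κ i).card : ℝ)) ^ 2 else 0) := by
        rw [← Finset.mul_sum, Finset.sum_comm]
    _ ≤ (Fintype.card ι : ℝ) * ∑ κ : Fin n → ι, mp (fun s => w (κ s)) ^ 2 := by
        apply mul_le_mul_of_nonneg_left _ (Nat.cast_nonneg _)
        apply Finset.sum_le_sum
        intro κ _
        have h2 : ∑ i : Fin n, (if hh w p q i κ ≠ 0 then
            (mp (fun s => w (κ s)) / ((univ.filter fun s => κ s = κ i).card : ℝ)) ^ 2 else 0) =
            mp (fun s => w (κ s)) ^ 2 * ∑ i, (if hh w p q i κ ≠ 0 then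
              (1 / ((univ.filter fun s => κ s = κ i).card : ℝ)) ^ 2 else 0) := by
          rw [Finset.mul_sum]
          apply Finset.sum_congr rfl
          intro i _
          split_ifs
          · ring
          · ring
        rw [h2]
        have h3 := mul_le_mul_of_nonneg_left (good_le0 h κ) (sq_nonneg (mp (fun s => w (κ s))))
        rw [mul_one] at h3
        exact h3


theorem core_lt0 {n : ℕ} {ι : Type} [Fintype ι] [DecidableEq ι] {w : ι → Fin (2 * n) → Fin (2 * n) → ℝ} {p q : Fin (2 * n)}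
    (h : Iso0 w p q)
    (hK : ∀ x y : Fin (2 * n) → ℝ, LinearIndependent ℝ ![x, y] → vv (mm p q) x y ^ 2 < ∑ k, vv (w k) x y ^ 2) :
    ∑ i, ∑ κ : Fin n → ι, hh w p q i κ ^ 2 < (Fintype.card ι : ℝ) * ∑ κ : Fin n → ι, mp (fun s => w (κ s)) ^ 2 := by
  classical
  by_cases hex : ∃ i : Fin n, ∃ κ : Fin n → ι, hh w p q i κ ≠ 0
  · obtain ⟨i0, κ0, h0⟩ := hex
    have hle : ∀ i : Fin n, ∀ κ : Fin n → ι, hh w p q i κ ^ 2 ≤ ∑ x, (fun κ' : Fin n → ι => if hh w p q i κ' ≠ 0 then
        (mp (fun s => w (κ' s)) / ((univ.filter fun s => κ' s = κ' i).card : ℝ)) ^ 2 else 0) (Function.update κ i x) := by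
      intro i κ
      by_cases hi : hh w p q i κ ≠ 0
      · refine le_trans (term_lt0 h hK hi).le (le_of_eq ?_)
        apply Finset.sum_congr rfl
        intro x _
        have hx : hh w p q i (Function.update κ i x) ≠ 0 := by
          rw [hh_update]
          exact hi
        simp only
        rw [if_pos hx]
      · have h0 : hh w p q i κ = 0 := by
          by_contra hc
          exact hi hc
        rw [h0]
        have : (0 : ℝ) ^ 2 = 0 := by norm_num
        rw [this]
        apply Finset.sum_nonneg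
        intro x _
        simp only
        split_ifs
        · positivity
        · exact le_refl _
    have hlt : hh w p q i0 κ0 ^ 2 < ∑ x, (fun κ' : Fin n → ι => if hh w p q i0 κ' ≠ 0 then
        (mp (fun s => w (κ' s)) / ((univ.filter fun s => κ' s = κ' i0).card : ℝ)) ^ 2 else 0)
          (Function.update κ0 i0 x) := by
      refine lt_of_lt_of_eq (term_lt0 h hK h0) ?_
      apply Finset.sum_congr rfl
      intro x _
      have hx : hh w p q i0 (Function.update κ0 i0 x) ≠ 0 := by
        rw [hh_update]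
        exact h0
      simp only
      rw [if_pos hx]
    have h1 : ∀ i : Fin n, ∑ κ : Fin n → ι, hh w p q i κ ^ 2 ≤
        (Fintype.card ι : ℝ) * ∑ κ : Fin n → ι, (if hh w p q i κ ≠ 0 then
          (mp (fun s => w (κ s)) / ((univ.filter fun s => κ s = κ i).card : ℝ)) ^ 2 else 0) := by
      intro i
      rw [← sum_update0 i (fun κ : Fin n → ι => if hh w p q i κ ≠ 0 then
          (mp (fun s => w (κ s)) / ((univ.filter fun s => κ s = κ i).card : ℝ)) ^ 2 else 0)]
      exact Finset.sum_le_sum fun κ _ => hle i κ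
    have h1' : ∑ κ : Fin n → ι, hh w p q i0 κ ^ 2 <
        (Fintype.card ι : ℝ) * ∑ κ : Fin n → ι, (if hh w p q i0 κ ≠ 0 then
          (mp (fun s => w (κ s)) / ((univ.filter fun s => κ s = κ i0).card : ℝ)) ^ 2 else 0) := by
      rw [← sum_update0 i0 (fun κ : Fin n → ι => if hh w p q i0 κ ≠ 0 then
          (mp (fun s => w (κ s)) / ((univ.filter fun s => κ s = κ i0).card : ℝ)) ^ 2 else 0)]
      exact Finset.sum_lt_sum (fun κ _ => hle i0 κ) ⟨κ0, Finset.mem_univ _, hlt⟩
    calc ∑ i, ∑ κ : Fin n → ι, hh w p q i κ ^ 2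
        < ∑ i : Fin n, (Fintype.card ι : ℝ) * ∑ κ : Fin n → ι, (if hh w p q i κ ≠ 0 then
          (mp (fun s => w (κ s)) / ((univ.filter fun s => κ s = κ i).card : ℝ)) ^ 2 else 0) :=
          Finset.sum_lt_sum (fun i _ => h1 i) ⟨i0, Finset.mem_univ _, h1'⟩
      _ = (Fintype.card ι : ℝ) * ∑ κ : Fin n → ι, ∑ i : Fin n, (if hh w p q i κ ≠ 0 then
          (mp (fun s => w (κ s)) / ((univ.filter fun s => κ s = κ i).card : ℝ)) ^ 2 else 0) := by
          rw [← Finset.mul_sum, Finset.sum_comm]
      _ ≤ (Fintype.card ι : ℝ) * ∑ κ : Fin n → ι, mp (fun s => w (κ s)) ^ 2 := by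
          apply mul_le_mul_of_nonneg_left _ (Nat.cast_nonneg _)
          apply Finset.sum_le_sum
          intro κ _
          have h2 : ∑ i : Fin n, (if hh w p q i κ ≠ 0 then
              (mp (fun s => w (κ s)) / ((univ.filter fun s => κ s = κ i).card : ℝ)) ^ 2 else 0) =
              mp (fun s => w (κ s)) ^ 2 * ∑ i, (if hh w p q i κ ≠ 0 then
                (1 / ((univ.filter fun s => κ s = κ i).card : ℝ)) ^ 2 else 0) := by
            rw [Finset.mul_sum]
            apply Finset.sum_congr rfl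
            intro i _
            split_ifs
            · ring
            · ring
          rw [h2]
          have h3 := mul_le_mul_of_nonneg_left (good_le0 h κ) (sq_nonneg (mp (fun s => w (κ s))))
          rw [mul_one] at h3
          exact h3
  · push Not at hex
    have h1 : ∑ i, ∑ κ : Fin n → ι, hh w p q i κ ^ 2 = 0 :=
      Finset.sum_eq_zero fun i _ => Finset.sum_eq_zero fun κ _ => by rw [hex i κ]; norm_num
    rw [h1]
    have hpos : ∀ x y : Fin (2 * n) → ℝ, LinearIndependent ℝ ![x, y] → 0 < ∑ k, vv (w k) x y ^ 2 :=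
      fun x y hxy => lt_of_le_of_lt (sq_nonneg _) (hK x y hxy)
    obtain ⟨κ, hκ⟩ := exists_mp_ne h.skew hpos
    have h2 : 0 < ∑ κ : Fin n → ι, mp (fun s => w (κ s)) ^ 2 := by
      refine Finset.sum_pos' (fun κ _ => sq_nonneg _) ⟨κ, Finset.mem_univ _, ?_⟩
      positivity
    have h3 : 0 < (Fintype.card ι : ℝ) := by
      have hn : 0 < n := by
        have := p.2
        omega
      have : Nonempty ι := ⟨κ ⟨0, hn⟩⟩
      exact_mod_cast Fintype.card_pos
    exact mul_pos h3 h2

end H39L
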