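import Pool.Agent.Lib.H7HB.M2b

/-!
# Families of two-forms with own legs (MP_5a30bb)

The restriction of `w x` to the span of the basis vectors other than `p, q` is a multiple of `e^(a x) ∧ e^(b x)`; if it is not zero,
the legs of `w x` in the directions `p, q` are at `a x`, `b x` only, and no other form has the same pair.
-/

set_option autoImplicit false

namespace H39L

open Finset Equiv Pool.Agent.H69Hopf H7HB

structure Own {n : ℕ} {ι : Type} (w : ι → Fin (2 * n) → Fin (2 * n) → ℝ) (p q : Fin (2 * n))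
    (a b : ι → Fin (2 * n)) : Prop where
  ne : p ≠ q
  skew : ∀ x i j, w x i j = - w x j i
  supp : ∀ x i j, rs p q (w x) i j ≠ 0 → (i = a x ∧ j = b x) ∨ (i = b x ∧ j = a x)
  leg : ∀ x, rs p q (w x) ≠ 0 → ∀ c, c ≠ p → c ≠ q → c ≠ a x → c ≠ b x → w x p c = 0 ∧ w x q c = 0
  one : ∀ x y, rs p q (w x) ≠ 0 → rs p q (w y) ≠ 0 →
    (a x = a y ∧ b x = b y) ∨ (a x = b y ∧ b x = a y) → x = y

theorem exists_perm0 {n : ℕ} {ι : Type} {w : ι → Fin (2 * n) → Fin (2 * n) → ℝ} {p q : Fin (2 * n)} {i : Fin n}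
    {κ : Fin n → ι} (hne : hh w p q i κ ≠ 0) :
    ∃ σ : Perm (Fin (2 * n)), ((σ (fst i) = p ∧ σ (snd i) = q) ∨ (σ (fst i) = q ∧ σ (snd i) = p)) ∧
      ∀ s, s ≠ i → rs p q (w (κ s)) (σ (fst s)) (σ (snd s)) ≠ 0 := by
  unfold hh mp at hne
  obtain ⟨σ, -, hσ⟩ := Finset.exists_ne_zero_of_sum_ne_zero hne
  have hprod := right_ne_zero_of_mul hσ
  rw [Finset.prod_ne_zero_iff] at hprod
  have hi := hprod i (mem_univ i)
  rw [Function.update_self] at hi
  have hpq := mm_ne hi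
  refine ⟨σ, hpq, fun s hs => ?_⟩
  have h1 := hprod s (mem_univ s)
  rw [Function.update_of_ne hs] at h1
  have e1 : ∀ x, σ (fst i) = x → σ (fst s) ≠ x := fun x h1 h2 =>
    hs (fst_inj.1 (σ.injective (h2.trans h1.symm)))
  have e2 : ∀ x, σ (snd i) = x → σ (fst s) ≠ x := fun x h1 h2 =>
    fst_ne_snd _ _ (σ.injective (h2.trans h1.symm))
  have e3 : ∀ x, σ (fst i) = x → σ (snd s) ≠ x := fun x h1 h2 =>
    fst_ne_snd _ _ (σ.injective (h1.trans h2.symm))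
  have e4 : ∀ x, σ (snd i) = x → σ (snd s) ≠ x := fun x h1 h2 =>
    hs (snd_inj.1 (σ.injective (h2.trans h1.symm)))
  rcases hpq with ⟨h3, h4⟩ | ⟨h3, h4⟩
  · rw [rs_of _ (e1 _ h3) (e2 _ h4) (e3 _ h3) (e4 _ h4)]
    exact h1
  · rw [rs_of _ (e2 _ h4) (e1 _ h3) (e4 _ h4) (e3 _ h3)]
    exact h1

end H39L
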