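import Pool.Agent.Lib.H39L.D

/-! # Isolation of perfect matchings (MP_5a30bb) -/

set_option autoImplicit false

namespace H39L

open Finset Equiv Pool.Agent.H69Hopf H7HB

section

variable {n : ℕ} {ι : Type} {w : ι → Fin (2 * n) → Fin (2 * n) → ℝ} {p q : Fin (2 * n)}
  {a b : ι → Fin (2 * n)}

private theorem i_avoid {i s : Fin n} (hs : s ≠ i) {σ : Perm (Fin (2 * n))}
    (hσ : (σ (fst i) = p ∧ σ (snd i) = q) ∨ (σ (fst i) = q ∧ σ (snd i) = p)) :
    σ (fst s) ≠ p ∧ σ (fst s) ≠ q ∧ σ (snd s) ≠ p ∧ σ (snd s) ≠ q := by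
  have e1 : ∀ x, σ (fst i) = x → σ (fst s) ≠ x := fun x h1 h2 =>
    hs (fst_inj.1 (σ.injective (h2.trans h1.symm)))
  have e2 : ∀ x, σ (snd i) = x → σ (fst s) ≠ x := fun x h1 h2 =>
    fst_ne_snd _ _ (σ.injective (h2.trans h1.symm))
  have e3 : ∀ x, σ (fst i) = x → σ (snd s) ≠ x := fun x h1 h2 =>
    fst_ne_snd _ _ (σ.injective (h1.trans h2.symm))
  have e4 : ∀ x, σ (snd i) = x → σ (snd s) ≠ x := fun x h1 h2 =>
    hs (snd_inj.1 (σ.injective (h2.trans h1.symm)))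
  rcases hσ with ⟨h1, h2⟩ | ⟨h1, h2⟩
  · exact ⟨e1 _ h1, e2 _ h2, e3 _ h1, e4 _ h2⟩
  · exact ⟨e2 _ h2, e1 _ h1, e4 _ h2, e3 _ h1⟩

/-- A nonzero term of `h`: the slots `s ≠ i` take the pairs `a (κ s), b (κ s)`. -/
private theorem i_perm (h : Own w p q a b) {i : Fin n} {κ : Fin n → ι} (hne : hh w p q i κ ≠ 0) :
    ∃ σ : Perm (Fin (2 * n)), ((σ (fst i) = p ∧ σ (snd i) = q) ∨ (σ (fst i) = q ∧ σ (snd i) = p)) ∧
      ∀ s, s ≠ i → rs p q (w (κ s)) ≠ 0 ∧ ((σ (fst s) = a (κ s) ∧ σ (snd s) = b (κ s)) ∨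
        (σ (fst s) = b (κ s) ∧ σ (snd s) = a (κ s))) := by
  obtain ⟨σ, h1, h2⟩ := exists_perm0 hne
  refine ⟨σ, h1, fun s hs => ⟨fun h0 => h2 s hs (by rw [h0]; rfl), h.supp _ _ _ (h2 s hs)⟩⟩

private theorem i_slot (h : Own w p q a b) {i : Fin n} {κ : Fin n → ι} (hne : hh w p q i κ ≠ 0) {u : Fin (2 * n)}
    (hp : u ≠ p) (hq : u ≠ q) : ∃ s, s ≠ i ∧ (u = a (κ s) ∨ u = b (κ s)) := by
  obtain ⟨σ, h1, h2⟩ := i_perm h hne
  obtain ⟨s, hs⟩ := exists_fst_or_snd (σ.symm u)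
  have hu : u = σ (fst s) ∨ u = σ (snd s) := by
    rcases hs with hs | hs
    · exact Or.inl (by rw [← hs, Equiv.apply_symm_apply])
    · exact Or.inr (by rw [← hs, Equiv.apply_symm_apply])
  have hsi : s ≠ i := by
    rintro rfl
    rcases h1 with ⟨h3, h4⟩ | ⟨h3, h4⟩ <;> rcases hu with hu | hu
    · exact hp (hu.trans h3)
    · exact hq (hu.trans h4)
    · exact hq (hu.trans h3)
    · exact hp (hu.trans h4)
  refine ⟨s, hsi, ?_⟩
  rcases (h2 s hsi).2 with ⟨h3, h4⟩ | ⟨h3, h4⟩ <;> rcases hu with hu | hu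
  · exact Or.inl (hu.trans h3)
  · exact Or.inr (hu.trans h4)
  · exact Or.inr (hu.trans h3)
  · exact Or.inl (hu.trans h4)

private theorem i_pair (h : Own w p q a b) {i : Fin n} {κ : Fin n → ι} (hne : hh w p q i κ ≠ 0) {s : Fin n}
    (hs : s ≠ i) :
    a (κ s) ≠ p ∧ a (κ s) ≠ q ∧ b (κ s) ≠ p ∧ b (κ s) ≠ q ∧ a (κ s) ≠ b (κ s) := by
  obtain ⟨σ, h1, h2⟩ := i_perm h hne
  obtain ⟨g1, g2, g3, g4⟩ := i_avoid hs h1
  have g5 : σ (fst s) ≠ σ (snd s) := fun e => fst_ne_snd _ _ (σ.injective e)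
  rcases (h2 s hs).2 with ⟨h3, h4⟩ | ⟨h3, h4⟩
  · rw [← h3, ← h4]
    exact ⟨g1, g2, g3, g4, g5⟩
  · rw [← h3, ← h4]
    exact ⟨g3, g4, g1, g2, g5.symm⟩

private theorem i_disj (h : Own w p q a b) {i : Fin n} {κ : Fin n → ι} (hne : hh w p q i κ ≠ 0) {s t : Fin n}
    (hs : s ≠ i) (ht : t ≠ i) (hst : s ≠ t) {u : Fin (2 * n)} (h1 : u = a (κ s) ∨ u = b (κ s))
    (h2 : u = a (κ t) ∨ u = b (κ t)) : False := by
  obtain ⟨σ, _, h3⟩ := i_perm h hne
  have e1 : u = σ (fst s) ∨ u = σ (snd s) := by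
    rcases (h3 s hs).2 with ⟨g1, g2⟩ | ⟨g1, g2⟩ <;> rcases h1 with h1 | h1
    · exact Or.inl (h1.trans g1.symm)
    · exact Or.inr (h1.trans g2.symm)
    · exact Or.inr (h1.trans g2.symm)
    · exact Or.inl (h1.trans g1.symm)
  have e2 : u = σ (fst t) ∨ u = σ (snd t) := by
    rcases (h3 t ht).2 with ⟨g1, g2⟩ | ⟨g1, g2⟩ <;> rcases h2 with h2 | h2
    · exact Or.inl (h2.trans g1.symm)
    · exact Or.inr (h2.trans g2.symm)
    · exact Or.inr (h2.trans g2.symm)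
    · exact Or.inl (h2.trans g1.symm)
  rcases e1 with e1 | e1 <;> rcases e2 with e2 | e2
  · exact hst (fst_inj.1 (σ.injective (e1.symm.trans e2)))
  · exact fst_ne_snd _ _ (σ.injective (e1.symm.trans e2))
  · exact fst_ne_snd _ _ (σ.injective (e2.symm.trans e1))
  · exact hst (snd_inj.1 (σ.injective (e1.symm.trans e2)))

private theorem i_one (h : Own w p q a b) {x y : ι} (hx : rs p q (w x) ≠ 0) (hy : rs p q (w y) ≠ 0)
    (hab : a x ≠ b x) (h1 : a x = a y ∨ a x = b y) (h2 : b x = a y ∨ b x = b y) : x = y := by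
  rcases h1 with h1 | h1 <;> rcases h2 with h2 | h2
  · exact absurd (h1.trans h2.symm) hab
  · exact h.one x y hx hy (Or.inl ⟨h1, h2⟩)
  · exact h.one x y hx hy (Or.inr ⟨h1, h2⟩)
  · exact absurd (h1.trans h2.symm) hab

end

/-- PROOF: `exists_perm0` for `κ` and for `κ' = update κ s x`: every index `c ≠ p, q` is in the pair `{a, b}` of exactly one slot
`t ≠ i`. The slot of `c = a (κ s)` for `κ'` is `s` (another slot would contradict the uniqueness for `κ`), so `c ∈ {a x, b x}`;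
the same for `b (κ s)`; `a (κ s) ≠ b (κ s)`; so the pairs agree and `x = κ s` (`one`). -/
theorem iso_own {n : ℕ} {ι : Type} {w : ι → Fin (2 * n) → Fin (2 * n) → ℝ} {p q : Fin (2 * n)}
    {a b : ι → Fin (2 * n)} (h : Own w p q a b) (i : Fin n) (κ : Fin n → ι) (hne : hh w p q i κ ≠ 0) (s : Fin n)
    (hs : s ≠ i) (x : ι) (hx : x ≠ κ s) : hh w p q i (Function.update κ s x) = 0 := by
  by_contra hc
  have e1 : Function.update κ s x s = x := Function.update_self s x κ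
  obtain ⟨_, _, k1⟩ := i_perm h hne
  obtain ⟨_, _, k2⟩ := i_perm h hc
  have r1 : rs p q (w (κ s)) ≠ 0 := (k1 s hs).1
  have r2 : rs p q (w x) ≠ 0 := by
    have := (k2 s hs).1
    rwa [e1] at this
  obtain ⟨g1, g2, g3, g4, g5⟩ := i_pair h hc hs
  rw [e1] at g1 g2 g3 g4 g5
  have key : ∀ u, u ≠ p → u ≠ q → (u = a x ∨ u = b x) → u = a (κ s) ∨ u = b (κ s) := by
    intro u hp hq hu
    obtain ⟨t, ht, hut⟩ := i_slot h hne hp hq
    by_cases hts : t = s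
    · subst hts
      exact hut
    · exfalso
      refine i_disj h hc hs ht (Ne.symm hts) (u := u) ?_ ?_
      · rw [e1]
        exact hu
      · rw [Function.update_of_ne hts]
        exact hut
  exact hx (i_one h r2 r1 g5 (key _ g1 g2 (Or.inl rfl)) (key _ g3 g4 (Or.inr rfl)))

/-- Two slots which can both be filled with `m` have the same index. -/
theorem same_own {n : ℕ} {ι : Type} {w : ι → Fin (2 * n) → Fin (2 * n) → ℝ} {p q : Fin (2 * n)}
    {a b : ι → Fin (2 * n)} (h : Own w p q a b) {i j : Fin n} {κ : Fin n → ι} (hi : hh w p q i κ ≠ 0)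
    (hj : hh w p q j κ ≠ 0) : κ i = κ j := by
  by_cases hij : i = j
  · rw [hij]
  · obtain ⟨_, _, k1⟩ := i_perm h hi
    obtain ⟨_, _, k2⟩ := i_perm h hj
    have r1 : rs p q (w (κ j)) ≠ 0 := (k1 j (Ne.symm hij)).1
    have r2 : rs p q (w (κ i)) ≠ 0 := (k2 i hij).1
    obtain ⟨g1, g2, g3, g4, g5⟩ := i_pair h hj hij
    have key : ∀ u, u ≠ p → u ≠ q → (u = a (κ i) ∨ u = b (κ i)) → u = a (κ j) ∨ u = b (κ j) := by
      intro u hp hq hu
      obtain ⟨t, ht, hut⟩ := i_slot h hi hp hq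
      by_cases htj : t = j
      · subst htj
        exact hut
      · exact (i_disj h hj hij htj (fun e => ht e.symm) hu hut).elim
    exact i_one h r2 r1 g5 (key _ g1 g2 (Or.inl rfl)) (key _ g3 g4 (Or.inr rfl))

end H39L
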