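import Pool.Agent.Lib.H7HB.M2b

/-!
# The isolation argument with a common kernel plane (MP_5a30bb)

`Iso0 w p q`: in the terms `hh` (one slot `m = e_p ∧ e_q`, the others `w (κ s)`) changing one index kills a nonzero term,
and the forms of a nonzero term have a common kernel plane `(e_p + u) ∧ (e_q + v)`.
-/

set_option autoImplicit false

namespace H39L

open Finset Equiv Pool.Agent.H69Hopf H7HB

structure Iso0 {n : ℕ} {ι : Type} (w : ι → Fin (2 * n) → Fin (2 * n) → ℝ) (p q : Fin (2 * n)) : Prop where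
  ne : p ≠ q
  skew : ∀ x i j, w x i j = - w x j i
  iso : ∀ (i : Fin n) (κ : Fin n → ι), hh w p q i κ ≠ 0 → ∀ s, s ≠ i → ∀ x, x ≠ κ s →
    hh w p q i (Function.update κ s x) = 0
  vec : ∀ (i : Fin n) (κ : Fin n → ι), hh w p q i κ ≠ 0 → ∀ r, r = p ∨ r = q → ∃ u : Fin (2 * n) → ℝ,
    u p = 0 ∧ u q = 0 ∧ ∀ s, s ≠ i → ∀ c, c ≠ p → c ≠ q →
      vv (w (κ s)) (Pi.single r 1 + u) (Pi.single c 1) = 0

variable {n : ℕ} {ι : Type} {w : ι → Fin (2 * n) → Fin (2 * n) → ℝ} {p q : Fin (2 * n)}

/-- Without legs every nonzero term has the slot `p, q`. -/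
theorem slot0 (hpq : p ≠ q) (hsk : ∀ x i j, w x i j = - w x j i) {i : Fin n} {κ : Fin n → ι}
    (hl : ∀ s, s ≠ i → ∀ c, c ≠ p → c ≠ q → w (κ s) p c = 0 ∧ w (κ s) q c = 0)
    (σ : Perm (Fin (2 * n))) (hσ : ∏ s, w (κ s) (σ (fst s)) (σ (snd s)) ≠ 0) :
    ∃ s, (σ (fst s) = p ∧ σ (snd s) = q) ∨ (σ (fst s) = q ∧ σ (snd s) = p) := by
  by_contra hcon
  push Not at hcon
  have hfac : ∀ s, w (κ s) (σ (fst s)) (σ (snd s)) ≠ 0 := fun s =>
    Finset.prod_ne_zero_iff.1 hσ s (Finset.mem_univ s)
  have hloc : ∀ x, (x = p ∨ x = q) → σ (fst i) = x ∨ σ (snd i) = x := by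
    intro x hx
    obtain ⟨a, ha⟩ := exists_fst_or_snd (σ.symm x)
    have ha' : σ (fst a) = x ∨ σ (snd a) = x := by
      rcases ha with h | h
      · left; rw [← h, Equiv.apply_symm_apply]
      · right; rw [← h, Equiv.apply_symm_apply]
    by_cases hai : a = i
    · rwa [hai] at ha'
    · exfalso
      have h0 := hfac a
      have hne : σ (fst a) ≠ σ (snd a) := fun h => fst_ne_snd a a (σ.injective h)
      rcases ha' with h | h
      · have h1 : σ (snd a) ≠ p := by
          intro h2
          rcases hx with hx | hx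
          · exact hne (by rw [h, h2, hx])
          · exact (hcon a).2 (by rw [h, hx]) h2
        have h2 : σ (snd a) ≠ q := by
          intro h2
          rcases hx with hx | hx
          · exact (hcon a).1 (by rw [h, hx]) h2
          · exact hne (by rw [h, h2, hx])
        rw [h] at h0
        rcases hx with hx | hx
        · rw [hx] at h0; exact h0 (hl a hai _ h1 h2).1
        · rw [hx] at h0; exact h0 (hl a hai _ h1 h2).2
      · have h1 : σ (fst a) ≠ p := by
          intro h2
          rcases hx with hx | hx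
          · exact hne (by rw [h, h2, hx])
          · exact (hcon a).1 h2 (by rw [h, hx])
        have h2 : σ (fst a) ≠ q := by
          intro h2
          rcases hx with hx | hx
          · exact (hcon a).2 h2 (by rw [h, hx])
          · exact hne (by rw [h, h2, hx])
        rw [h, hsk] at h0
        rcases hx with hx | hx
        · rw [hx] at h0; exact h0 (by rw [(hl a hai _ h1 h2).1, neg_zero])
        · rw [hx] at h0; exact h0 (by rw [(hl a hai _ h1 h2).2, neg_zero])
  rcases hloc p (Or.inl rfl) with h1 | h1 <;> rcases hloc q (Or.inr rfl) with h2 | h2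
  · exact hpq (h1.symm.trans h2)
  · exact (hcon i).1 h1 h2
  · exact (hcon i).2 h2 h1
  · exact hpq (h1.symm.trans h2)

theorem hh_slot_aux0 (w : ι → Fin (2 * n) → Fin (2 * n) → ℝ) (p q : Fin (2 * n)) {i s : Fin n} (hs : s ≠ i)
    (κ : Fin n → ι) : hh w p q s κ = hh w p q i (Function.update κ s (κ i)) := by
  unfold hh
  rw [← mp_swap (Function.update (fun t => w (κ t)) s (mm p q)) s i]
  congr 1
  funext t
  by_cases h1 : t = i
  · subst h1
    rw [swap_apply_right, Function.update_self, Function.update_self]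
  · by_cases h2 : t = s
    · subst h2
      rw [swap_apply_left, Function.update_of_ne (Ne.symm h1), Function.update_of_ne h1, Function.update_self]
    · rw [swap_apply_of_ne_of_ne h2 h1, Function.update_of_ne h2, Function.update_of_ne h1, Function.update_of_ne h2]

theorem hh_slot0 [DecidableEq ι] (h : ∀ (i : Fin n) (κ : Fin n → ι), hh w p q i κ ≠ 0 → ∀ s, s ≠ i → ∀ x, x ≠ κ s →
    hh w p q i (Function.update κ s x) = 0) {i : Fin n} {κ : Fin n → ι} (hne : hh w p q i κ ≠ 0) (s : Fin n) :
    hh w p q s κ = if κ s = κ i then hh w p q i κ else 0 := by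
  by_cases hs : s = i
  · subst hs
    simp
  · rw [hh_slot_aux0 w p q hs κ]
    split_ifs with hk
    · rw [← hk, Function.update_eq_self]
    · exact h i κ hne s hs _ (fun e => hk e.symm)

theorem key0 [DecidableEq ι] (hpq : p ≠ q) (hsk : ∀ x i j, w x i j = - w x j i)
    (h : ∀ (i : Fin n) (κ : Fin n → ι), hh w p q i κ ≠ 0 → ∀ s, s ≠ i → ∀ x, x ≠ κ s →
      hh w p q i (Function.update κ s x) = 0) {i : Fin n} {κ : Fin n → ι} (hne : hh w p q i κ ≠ 0)
    (hl : ∀ s, s ≠ i → ∀ c, c ≠ p → c ≠ q → w (κ s) p c = 0 ∧ w (κ s) q c = 0) :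
    mp (fun s => w (κ s)) = ((univ.filter fun s => κ s = κ i).card : ℝ) * w (κ i) p q * hh w p q i κ := by
  rw [mp_expand hpq (fun s => w (κ s)) (fun s => hsk (κ s)) (fun σ hσ => slot0 hpq hsk hl σ hσ)]
  have e1 : ∀ s : Fin n, w (κ s) p q * mp (Function.update (fun s => w (κ s)) s (mm p q)) =
      if κ s = κ i then w (κ i) p q * hh w p q i κ else 0 := by
    intro s
    have e2 : mp (Function.update (fun s => w (κ s)) s (mm p q)) = hh w p q s κ := rfl
    rw [e2, hh_slot0 h hne s]
    split_ifs with hk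
    · rw [hk]
    · ring
  rw [Finset.sum_congr rfl (fun s _ => e1 s), ← Finset.sum_filter, Finset.sum_const, nsmul_eq_mul]
  ring

/-- The plane and the exact term identity. -/
theorem term_eq0 [Fintype ι] [DecidableEq ι] (h : Iso0 w p q) {i : Fin n} {κ : Fin n → ι} (hne : hh w p q i κ ≠ 0) :
    ∃ u v : Fin (2 * n) → ℝ, u p = 0 ∧ u q = 0 ∧ v p = 0 ∧ v q = 0 ∧
      ∑ x, (mp (fun s => w (Function.update κ i x s)) /
        ((univ.filter fun s => Function.update κ i x s = Function.update κ i x i).card : ℝ)) ^ 2 =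
      hh w p q i κ ^ 2 * ∑ k, vv (w k) (Pi.single p 1 + u) (Pi.single q 1 + v) ^ 2 := by
  obtain ⟨u, hup, huq, hu⟩ := h.vec i κ hne p (Or.inl rfl)
  obtain ⟨v, hvp, hvq, hv⟩ := h.vec i κ hne q (Or.inr rfl)
  refine ⟨u, v, hup, huq, hvp, hvq, ?_⟩
  have hdet : (EE p q u v).det = 1 := det_EE h.ne hup huq hvp hvq
  have hmp : ∀ κ' : Fin n → ι, mp (fun s => tr (EE p q u v) (w (κ' s))) = mp (fun s => w (κ' s)) := by
    intro κ'
    have h1 := mp_tr (EE p q u v) (fun s => w (κ' s))
    rw [hdet, one_mul] at h1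
    exact h1
  have hhh : ∀ (i' : Fin n) (κ' : Fin n → ι), hh (fun x => tr (EE p q u v) (w x)) p q i' κ' = hh w p q i' κ' := by
    intro i' κ'
    have h1 := mp_tr (EE p q u v) (Function.update (fun s => w (κ' s)) i' (mm p q))
    rw [hdet, one_mul] at h1
    unfold hh
    rw [← h1]
    have h2 : Function.update (fun s => tr (EE p q u v) (w (κ' s))) i' (mm p q) =
        fun s => tr (EE p q u v) (Function.update (fun s => w (κ' s)) i' (mm p q) s) := by
      funext s
      by_cases hs : s = i'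
      · subst hs
        rw [Function.update_self, Function.update_self, tr_mm h.ne hup huq hvp hvq]
      · rw [Function.update_of_ne hs, Function.update_of_ne hs]
    rw [h2]
  have hiso : ∀ (i : Fin n) (κ : Fin n → ι), hh (fun x => tr (EE p q u v) (w x)) p q i κ ≠ 0 → ∀ s, s ≠ i → ∀ x,
      x ≠ κ s → hh (fun x => tr (EE p q u v) (w x)) p q i (Function.update κ s x) = 0 := by
    intro i' κ' h1 s hs x hx
    rw [hhh] at h1 ⊢
    exact h.iso i' κ' h1 s hs x hx
  rw [Finset.mul_sum]
  refine Finset.sum_congr rfl fun x _ => ?_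
  have hnx : hh (fun x => tr (EE p q u v) (w x)) p q i (Function.update κ i x) ≠ 0 := by
    rw [hh_update, hhh]
    exact hne
  have hl : ∀ s, s ≠ i → ∀ c, c ≠ p → c ≠ q → tr (EE p q u v) (w (Function.update κ i x s)) p c = 0 ∧
      tr (EE p q u v) (w (Function.update κ i x s)) q c = 0 := by
    intro s hs c hcp hcq
    rw [Function.update_of_ne hs]
    exact ⟨(tr_pc (w (κ s)) h.ne hcp hcq).trans (hu s hs c hcp hcq),
      (tr_qc (w (κ s)) h.ne hcp hcq).trans (hv s hs c hcp hcq)⟩
  have hk := key0 (w := fun x => tr (EE p q u v) (w x)) h.ne (fun x i j => tr_skew (EE p q u v) (h.skew x) i j)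
    hiso hnx hl
  rw [hmp, hh_update, hhh] at hk
  have hc : ((univ.filter fun s => Function.update κ i x s = Function.update κ i x i).card : ℝ) ≠ 0 := by
    have h1 : 0 < (univ.filter fun s => Function.update κ i x s = Function.update κ i x i).card :=
      Finset.card_pos.2 ⟨i, Finset.mem_filter.2 ⟨Finset.mem_univ _, rfl⟩⟩
    exact_mod_cast h1.ne'
  rw [hk]
  have h3 : tr (EE p q u v) (w (Function.update κ i x i)) p q =
      vv (w x) (Pi.single p 1 + u) (Pi.single q 1 + v) := by
    rw [Function.update_self]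
    exact tr_pq h.ne huq hvp (w x)
  rw [h3]
  rw [mul_assoc, mul_div_cancel_left₀ _ hc]
  ring

end H39L
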