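import Pool.Agent.Lib.H39L.D
import Pool.Agent.Lib.H7HB.L4b

/-! # The adapted family from the tensor (MP_5a30bb) -/

set_option autoImplicit false

namespace H39L

open Finset Equiv Pool.Agent.H69Hopf H7HB

private theorem inner_W' {N K : ℕ} (w : Fin K → Fin N → Fin N → ℝ) (i j k l : Fin N) :
    inner ℝ (W w i j) (W w k l) = ∑ x, w x i j * w x k l := by
  simp [W, PiLp.inner_apply, mul_comm]

/-- PROOF: `J` = the pairs `(i, j)`, `i < j`, both different from `p, q`; `F (i, j)` = span of `W w i j` (orthogonal: for different pairs one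
index of the first pair is not in the second one, `hd`). `collect` (with `q = 0`) gives `b`, `lab`; drop nothing; `w' = rot w b`,
`(a x, b x) = (i, j)` if `lab x = some (i, j)`, anything otherwise. `rs p q (w' x) k l = ⟪b x, W k l⟫`. `leg`: `b x = c • W i j`, so
`w' x p c = c * ⟪W i j, W p c⟫ = 0` by `hd`. `one`: two orthonormal vectors in the line `F (i, j)` (`FF_rank` / `no_two` in H7HG.L4b, or
`one` in H7HB.L4b). `rot_sum`, `rot_skew`. -/
theorem exists_own {n K : ℕ} {w : Fin K → Fin (2 * n) → Fin (2 * n) → ℝ} (hs : ∀ x i j, w x i j = - w x j i)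
    {p q : Fin (2 * n)} (hpq : p ≠ q)
    (hd : ∀ x i j k, i ≠ p → i ≠ q → j ≠ p → j ≠ q → k ≠ p → k ≠ q → i ≠ j → i ≠ k →
      ∑ y, w y x i * w y j k = 0) :
    ∃ (ι : Type) (_ : Fintype ι) (_ : DecidableEq ι) (w' : ι → Fin (2 * n) → Fin (2 * n) → ℝ) (a b : ι → Fin (2 * n)),
      Own w' p q a b ∧ ∀ i j k l, ∑ x, w' x i j * w' x k l = ∑ x, w x i j * w x k l := by
  classical
  have hWs : ∀ i k, W w i k = - W w k i := by
    intro i k
    ext z
    exact hs z i k
  have hW0 : ∀ i, W w i i = 0 := by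
    intro i
    ext z
    have := hs z i i
    show w z i i = 0
    linarith
  have hd' : ∀ x i j k, i ≠ p → i ≠ q → j ≠ p → j ≠ q → k ≠ p → k ≠ q → i ≠ j → i ≠ k →
      inner ℝ (W w x i) (W w j k) = 0 := by
    intro x i j k h1 h2 h3 h4 h5 h6 h7 h8
    rw [inner_W']
    exact hd x i j k h1 h2 h3 h4 h5 h6 h7 h8
  let J : Type := {c : Fin (2 * n) × Fin (2 * n) // c.1 < c.2 ∧ c.1 ≠ p ∧ c.1 ≠ q ∧ c.2 ≠ p ∧ c.2 ≠ q}
  let F : J → Submodule ℝ (EuclideanSpace ℝ (Fin K)) := fun c => Submodule.span ℝ {W w c.1.1 c.1.2}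
  have hFmem : ∀ (c : J) (v : EuclideanSpace ℝ (Fin K)), v ∈ F c → ∃ α : ℝ, v = α • W w c.1.1 c.1.2 := by
    intro c v hv
    obtain ⟨α, hα⟩ := Submodule.mem_span_singleton.1 hv
    exact ⟨α, hα.symm⟩
  -- the inner product with `W k l`
  have hin : ∀ (c : J) (k l : Fin (2 * n)), k ≠ p → k ≠ q → l ≠ p → l ≠ q →
      inner ℝ (W w c.1.1 c.1.2) (W w k l) ≠ 0 → (k = c.1.1 ∧ l = c.1.2) ∨ (k = c.1.2 ∧ l = c.1.1) := by
    intro c k l hk1 hk2 hl1 hl2 hne
    obtain ⟨hlt, hi1, hi2, hj1, hj2⟩ := c.2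
    by_cases h1 : c.1.1 ≠ k ∧ c.1.1 ≠ l
    · exfalso
      apply hne
      rw [hWs, inner_neg_left, hd' c.1.2 c.1.1 k l hi1 hi2 hk1 hk2 hl1 hl2 h1.1 h1.2, neg_zero]
    · by_cases h2 : c.1.2 ≠ k ∧ c.1.2 ≠ l
      · exfalso
        exact hne (hd' c.1.1 c.1.2 k l hj1 hj2 hk1 hk2 hl1 hl2 h2.1 h2.2)
      · have h3 : c.1.1 = k ∨ c.1.1 = l := by
          by_contra hc
          push Not at hc
          exact h1 hc
        have h4 : c.1.2 = k ∨ c.1.2 = l := by
          by_contra hc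
          push Not at hc
          exact h2 hc
        have hne' : c.1.1 ≠ c.1.2 := ne_of_lt hlt
        rcases h3 with h3 | h3
        · rcases h4 with h4 | h4
          · exact absurd (h3.trans h4.symm) hne'
          · exact Or.inl ⟨h3.symm, h4.symm⟩
        · rcases h4 with h4 | h4
          · exact Or.inr ⟨h4.symm, h3.symm⟩
          · exact absurd (h3.trans h4.symm) hne'
  obtain ⟨ι, i1, i2, b, lab, hb1, hb2, -⟩ := collect (J := J) F
    (by
      intro c d hcd x hx y hy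
      obtain ⟨α, rfl⟩ := hFmem c x hx
      obtain ⟨β, rfl⟩ := hFmem d y hy
      rw [real_inner_smul_left, real_inner_smul_right]
      have h0 : inner ℝ (W w c.1.1 c.1.2) (W w d.1.1 d.1.2) = 0 := by
        by_contra hne
        obtain ⟨hlt, -, -, -, -⟩ := c.2
        obtain ⟨hlt', hi1, hi2, hj1, hj2⟩ := d.2
        rcases hin c d.1.1 d.1.2 hi1 hi2 hj1 hj2 hne with ⟨h1, h2⟩ | ⟨h1, h2⟩
        · exact hcd (Subtype.ext (Prod.ext h1.symm h2.symm))
        · rw [h1, h2] at hlt'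
          exact absurd hlt' (not_lt.2 hlt.le)
      rw [h0, mul_zero, mul_zero])
    (fun _ => 0) (fun _ _ _ => rfl)
  have hnone : ∀ x, lab x = none → rs p q (rot w b x) = 0 := by
    intro x hx
    funext k l
    show rs p q (rot w b x) k l = 0
    by_contra hne
    obtain ⟨h1, h2, h3, h4, h5⟩ := rs_ne hne
    apply h5
    show inner ℝ (b x) (W w k l) = 0
    rcases lt_trichotomy k l with h | h | h
    · exact hb2 x hx ⟨(k, l), h, h1, h2, h3, h4⟩ _ (Submodule.mem_span_singleton_self _)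
    · rw [h, hW0, inner_zero_right]
    · rw [hWs, inner_neg_right, hb2 x hx ⟨(l, k), h, h3, h4, h1, h2⟩ _ (Submodule.mem_span_singleton_self _), neg_zero]
  have hsome : ∀ x, rs p q (rot w b x) ≠ 0 → ∃ c, lab x = some c := by
    intro x hx
    rcases hl : lab x with _ | c
    · exact absurd (hnone x hl) hx
    · exact ⟨c, rfl⟩
  refine ⟨ι, i1, i2, rot w b, fun x => (lab x).elim p fun c => c.1.1, fun x => (lab x).elim p fun c => c.1.2,
    ⟨hpq, rot_skew hs b, ?_, ?_, ?_⟩, rot_sum w b⟩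
  · intro x i j hne
    have hx : rs p q (rot w b x) ≠ 0 := fun h => hne (by rw [h]; rfl)
    obtain ⟨c, hc⟩ := hsome x hx
    obtain ⟨h1, h2, h3, h4, h5⟩ := rs_ne hne
    obtain ⟨α, hα⟩ := hFmem c _ (hb1 x c hc)
    have h6 : inner ℝ (W w c.1.1 c.1.2) (W w i j) ≠ 0 := by
      intro h0
      apply h5
      show inner ℝ (b x) (W w i j) = 0
      rw [hα, real_inner_smul_left, h0, mul_zero]
    simp only [hc, Option.elim_some]
    exact hin c i j h1 h2 h3 h4 h6
  · intro x hx c' hp hq ha hb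
    obtain ⟨c, hc⟩ := hsome x hx
    simp only [hc, Option.elim_some] at ha hb
    obtain ⟨α, hα⟩ := hFmem c _ (hb1 x c hc)
    obtain ⟨-, hi1, hi2, hj1, hj2⟩ := c.2
    have key : ∀ r, rot w b x r c' = 0 := by
      intro r
      show inner ℝ (b x) (W w r c') = 0
      rw [hα, real_inner_smul_left, real_inner_comm, hd' r c' c.1.1 c.1.2 hp hq hi1 hi2 hj1 hj2 ha hb, mul_zero]
    exact ⟨key p, key q⟩
  · intro x y hx hy hab
    obtain ⟨c, hc⟩ := hsome x hx
    obtain ⟨d, hd1⟩ := hsome y hy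
    simp only [hc, hd1, Option.elim_some] at hab
    have hcd : c = d := by
      rcases hab with ⟨h1, h2⟩ | ⟨h1, h2⟩
      · exact Subtype.ext (Prod.ext h1 h2)
      · exfalso
        have h3 := c.2.1
        rw [h1, h2] at h3
        exact absurd h3 (not_lt.2 d.2.1.le)
    subst hcd
    by_contra hxy
    obtain ⟨α, hα⟩ := hFmem c _ (hb1 x c hc)
    obtain ⟨β, hβ⟩ := hFmem c _ (hb1 y c hd1)
    have h7 : inner ℝ (b x) (b y) = 0 := b.orthonormal.2 hxy
    have hx0 : b x ≠ 0 := b.orthonormal.ne_zero x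
    have hy0 : b y ≠ 0 := b.orthonormal.ne_zero y
    rw [hα, hβ, real_inner_smul_left, real_inner_smul_right] at h7
    rcases mul_eq_zero.1 h7 with h8 | h8
    · exact hx0 (by rw [hα, h8, zero_smul])
    · rcases mul_eq_zero.1 h8 with h9 | h9
      · exact hy0 (by rw [hβ, h9, zero_smul])
      · rw [inner_self_eq_zero] at h9
        exact hx0 (by rw [hα, h9, smul_zero])

end H39L
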