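import Pool.Agent.Lib.H39L.D

/-! # The common kernel vectors of a perfect matching (MP_5a30bb) -/

set_option autoImplicit false

namespace H39L

open Finset Equiv Pool.Agent.H69Hopf H7HB

/-- PROOF: `exists_perm0`; with `f = w (κ s)`, `a' = σ (fst s)`, `b' = σ (snd s)` (`{a', b'} = {a, b} (κ s)`): `u a' = - f r b' / f a' b'`,
`u b' = - f r a' / f b' a'` for `s ≠ i`, `u p = u q = 0` (every index is `σ` of exactly one position). For `c` in the pair of `s`:
`f r c + Σ_d u d * f d c`, only `d` = the partner of `c` contributes: `0`. For the other `c ≠ p, q`: `f r c = 0` (`leg`) and all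
`f d c = 0` for `d ≠ p, q` (`supp`). -/
theorem vec_own {n : ℕ} {ι : Type} {w : ι → Fin (2 * n) → Fin (2 * n) → ℝ} {p q : Fin (2 * n)}
    {a b : ι → Fin (2 * n)} (h : Own w p q a b) (i : Fin n) (κ : Fin n → ι) (hne : hh w p q i κ ≠ 0) (r : Fin (2 * n))
    (hr : r = p ∨ r = q) :
    ∃ u : Fin (2 * n) → ℝ, u p = 0 ∧ u q = 0 ∧ ∀ s, s ≠ i → ∀ c, c ≠ p → c ≠ q →
      vv (w (κ s)) (Pi.single r 1 + u) (Pi.single c 1) = 0 := by
  classical
  obtain ⟨σ, hpq, hσ⟩ := exists_perm0 hne
  have hg : ∀ y : Fin (2 * n), ∃ v : ℝ,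
      (∀ s, y = fst s → v = if s = i then 0 else
        - w (κ s) r (σ (snd s)) / w (κ s) (σ (fst s)) (σ (snd s))) ∧
      (∀ s, y = snd s → v = if s = i then 0 else
        - w (κ s) r (σ (fst s)) / w (κ s) (σ (snd s)) (σ (fst s))) := by
    intro y
    obtain ⟨s, hs | hs⟩ := exists_fst_or_snd y
    · refine ⟨if s = i then 0 else - w (κ s) r (σ (snd s)) / w (κ s) (σ (fst s)) (σ (snd s)),
        fun t ht => ?_, fun t ht => absurd (hs.symm.trans ht) (fst_ne_snd _ _)⟩
      have e : s = t := fst_inj.1 (hs.symm.trans ht)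
      rw [e]
    · refine ⟨if s = i then 0 else - w (κ s) r (σ (fst s)) / w (κ s) (σ (snd s)) (σ (fst s)),
        fun t ht => absurd (ht.symm.trans hs) (fst_ne_snd _ _), fun t ht => ?_⟩
      have e : s = t := snd_inj.1 (hs.symm.trans ht)
      rw [e]
  choose g hg1 hg2 using hg
  have hu1 : ∀ s, g (σ.symm (σ (fst s))) = if s = i then 0 else
      - w (κ s) r (σ (snd s)) / w (κ s) (σ (fst s)) (σ (snd s)) := by
    intro s
    rw [Equiv.symm_apply_apply]
    exact hg1 _ s rfl
  have hu2 : ∀ s, g (σ.symm (σ (snd s))) = if s = i then 0 else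
      - w (κ s) r (σ (fst s)) / w (κ s) (σ (snd s)) (σ (fst s)) := by
    intro s
    rw [Equiv.symm_apply_apply]
    exact hg2 _ s rfl
  have hi1 : g (σ.symm (σ (fst i))) = 0 := by rw [hu1 i, if_pos rfl]
  have hi2 : g (σ.symm (σ (snd i))) = 0 := by rw [hu2 i, if_pos rfl]
  have hup : g (σ.symm p) = 0 := by
    rcases hpq with ⟨h1, h2⟩ | ⟨h1, h2⟩
    · rw [← h1]; exact hi1
    · rw [← h2]; exact hi2
  have huq : g (σ.symm q) = 0 := by
    rcases hpq with ⟨h1, h2⟩ | ⟨h1, h2⟩
    · rw [← h2]; exact hi2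
    · rw [← h1]; exact hi1
  refine ⟨fun x => g (σ.symm x), hup, huq, fun s hs c hcp hcq => ?_⟩
  have hrs := hσ s hs
  have hsup := h.supp (κ s) _ _ hrs
  obtain ⟨hAp, hAq, hBp, hBq, hAB⟩ := rs_ne hrs
  have hBA : w (κ s) (σ (snd s)) (σ (fst s)) ≠ 0 := by
    rw [h.skew]
    exact neg_ne_zero.2 hAB
  have hne0 : rs p q (w (κ s)) ≠ 0 := by
    intro h0
    exact hrs (by rw [h0]; rfl)
  -- the value
  have hval : vv (w (κ s)) (Pi.single r 1 + fun x => g (σ.symm x)) (Pi.single c 1) =
      w (κ s) r c + ∑ d, g (σ.symm d) * w (κ s) d c := by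
    unfold vv
    have hinner : ∀ d, ∑ b', w (κ s) d b' *
        ((Pi.single r (1 : ℝ) + fun x => g (σ.symm x) : Fin (2 * n) → ℝ) d) *
          (Pi.single c (1 : ℝ) : Fin (2 * n) → ℝ) b' =
        w (κ s) d c * (Pi.single r (1 : ℝ) : Fin (2 * n) → ℝ) d + g (σ.symm d) * w (κ s) d c := by
      intro d
      rw [Finset.sum_eq_single c]
      · rw [Pi.single_eq_same, Pi.add_apply]
        ring
      · intro b' _ hb
        rw [Pi.single_eq_of_ne hb, mul_zero]
      · intro hc
        exact absurd (Finset.mem_univ c) hc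
    rw [Finset.sum_congr rfl fun d _ => hinner d, Finset.sum_add_distrib]
    congr 1
    rw [Finset.sum_eq_single r]
    · rw [Pi.single_eq_same, mul_one]
    · intro b' _ hb
      rw [Pi.single_eq_of_ne hb, mul_zero]
    · intro hc
      exact absurd (Finset.mem_univ r) hc
  rw [hval]
  -- which terms contribute
  have hterm : ∀ d, g (σ.symm d) * w (κ s) d c ≠ 0 →
      (d = a (κ s) ∧ c = b (κ s)) ∨ (d = b (κ s) ∧ c = a (κ s)) := by
    intro d hd
    have hdp : d ≠ p := by
      intro e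
      apply hd
      rw [e, hup, zero_mul]
    have hdq : d ≠ q := by
      intro e
      apply hd
      rw [e, huq, zero_mul]
    apply h.supp (κ s) d c
    rw [rs_of (w (κ s)) hdp hdq hcp hcq]
    exact right_ne_zero_of_mul hd
  by_cases hcA : c = σ (fst s)
  · have hsum : ∑ d, g (σ.symm d) * w (κ s) d c =
        g (σ.symm (σ (snd s))) * w (κ s) (σ (snd s)) c := by
      refine Finset.sum_eq_single _ (fun d _ hd => ?_) (fun hc => absurd (Finset.mem_univ _) hc)
      by_contra hne1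
      apply hd
      rcases hterm d hne1 with ⟨e1, e2⟩ | ⟨e1, e2⟩ <;> rcases hsup with ⟨e3, e4⟩ | ⟨e3, e4⟩
      · rw [e4, ← e2, hcA, e3, e1]
      · rw [e4, e1]
      · rw [e4, e1]
      · rw [e4, ← e2, hcA, e3, e1]
    rw [hsum, hu2 s, if_neg hs, hcA, div_mul_cancel₀ _ hBA, add_neg_cancel]
  · by_cases hcB : c = σ (snd s)
    · have hsum : ∑ d, g (σ.symm d) * w (κ s) d c =
          g (σ.symm (σ (fst s))) * w (κ s) (σ (fst s)) c := by
        refine Finset.sum_eq_single _ (fun d _ hd => ?_) (fun hc => absurd (Finset.mem_univ _) hc)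
        by_contra hne1
        apply hd
        rcases hterm d hne1 with ⟨e1, e2⟩ | ⟨e1, e2⟩ <;> rcases hsup with ⟨e3, e4⟩ | ⟨e3, e4⟩
        · rw [e3, e1]
        · rw [e3, ← e2, hcB, e4, e1]
        · rw [e3, ← e2, hcB, e4, e1]
        · rw [e3, e1]
      rw [hsum, hu1 s, if_neg hs, hcB, div_mul_cancel₀ _ hAB, add_neg_cancel]
    · have hca : c ≠ a (κ s) := by
        intro e
        rcases hsup with ⟨e3, e4⟩ | ⟨e3, e4⟩
        · exact hcA (e.trans e3.symm)
        · exact hcB (e.trans e4.symm)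
      have hcb : c ≠ b (κ s) := by
        intro e
        rcases hsup with ⟨e3, e4⟩ | ⟨e3, e4⟩
        · exact hcB (e.trans e4.symm)
        · exact hcA (e.trans e3.symm)
      have hleg := h.leg (κ s) hne0 c hcp hcq hca hcb
      have hrc : w (κ s) r c = 0 := by
        rcases hr with e | e
        · rw [e]; exact hleg.1
        · rw [e]; exact hleg.2
      have hsum : ∑ d, g (σ.symm d) * w (κ s) d c = 0 := by
        refine Finset.sum_eq_zero fun d _ => ?_
        by_contra hne1
        rcases hterm d hne1 with ⟨e1, e2⟩ | ⟨e1, e2⟩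
        · exact hcb e2
        · exact hca e2
      rw [hrc, hsum, add_zero]

end H39L
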