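import Pool.Agent.Lib.H39L.C
import Pool.Agent.Lib.H39L.I
import Pool.Agent.Lib.H39L.V
import Pool.Agent.Lib.H39L.L
import Pool.Agent.Lib.H7HB.L5
import Pool.Agent.Lib.H7HB.M1b
import Pool.Agent.Lib.H46X.B3
import Pool.Agent.Lib.H79G.F1

/-!
# The class `OwnLegs` (MP_5a30bb)
-/

set_option autoImplicit false

namespace H39L

open Finset Equiv Pool.Agent.H69Hopf Pool.Agent.H46X H31R H79G H7HB

/-- In some basis (the columns of `E`): the curvature operator of `R` is at most the square of `m = e^p ∧ e^q`, and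
`R x i j k = 0` for all `x` if `i, j, k` are different from `p, q` and `i` is not `j` or `k`. -/
def OwnLegs {N : ℕ} (R : Arr N) : Prop :=
  ∃ (E : Matrix (Fin N) (Fin N) ℝ) (p q : Fin N), E.det ≠ 0 ∧ p ≠ q ∧
    (∀ v : Matrix (Fin N) (Fin N) ℝ, v.transpose = -v →
      ∑ i, ∑ j, ∑ k, ∑ l, frameR R E i j k l * v i j * v k l ≤ (∑ i, ∑ j, mm p q i j * v i j) ^ 2) ∧
    ∀ x i j k, i ≠ p → i ≠ q → j ≠ p → j ≠ q → k ≠ p → k ≠ q → i ≠ j → i ≠ k → frameR R E x i j k = 0

theorem iso0_of_own {n : ℕ} {ι : Type} {w : ι → Fin (2 * n) → Fin (2 * n) → ℝ} {p q : Fin (2 * n)}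
    {a b : ι → Fin (2 * n)} (h : Own w p q a b) : Iso0 w p q :=
  ⟨h.ne, h.skew, iso_own h, fun i κ hne r hr => vec_own h i κ hne r hr⟩

theorem exists_dataO {n : ℕ} {R : Arr (2 * n)} (hA : IsAlgCurv R) (hS : OwnLegs R) :
    ∃ (E : Matrix (Fin (2 * n)) (Fin (2 * n)) ℝ) (p q : Fin (2 * n)) (ι : Type) (_ : Fintype ι)
      (_ : DecidableEq ι) (w : ι → Fin (2 * n) → Fin (2 * n) → ℝ), E.det ≠ 0 ∧ Iso0 w p q ∧
      (∀ i j k l, frameR R E i j k l = mm p q i j * mm p q k l - ∑ x, w x i j * w x k l) ∧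
      ∀ x y, ∑ k, vv (w k) x y ^ 2 - vv (mm p q) x y ^ 2 = - ev R (E.mulVec x) (E.mulVec y) (E.mulVec x) (E.mulVec y) := by
  obtain ⟨E, p, q, hdet, hpq, hop, hleg⟩ := hS
  have hA' : IsAlgCurv (frameR R E) := frame_algCurv hA E
  set R' := frameR R E with hR'
  have hsk : ∀ i j k l, R' i j k l = - R' i j l k := by
    intro i j k l
    rw [hA'.pair i j k l, hA'.skew k l i j, hA'.pair l k i j]
  obtain ⟨K, w0, hs0, hw0⟩ := psd_sum (fun i j k l => mm p q i j * mm p q k l - R' i j k l)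
    (fun i j k l => by
      show mm p q i j * mm p q k l - R' i j k l = -(mm p q j i * mm p q k l - R' j i k l)
      rw [mm_skew p q i j, hA'.skew i j k l]; ring)
    (fun i j k l => by
      show mm p q i j * mm p q k l - R' i j k l = -(mm p q i j * mm p q l k - R' i j l k)
      rw [mm_skew p q k l, hsk i j k l]; ring)
    (fun i j k l => by
      show mm p q i j * mm p q k l - R' i j k l = mm p q k l * mm p q i j - R' k l i j
      rw [hA'.pair i j k l]; ring)
    (fun v hv => by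
      have h1 := hop v hv
      have h2 : ∑ i, ∑ j, ∑ k, ∑ l, (mm p q i j * mm p q k l - R' i j k l) * v i j * v k l =
          (∑ i, ∑ j, mm p q i j * v i j) ^ 2 - ∑ i, ∑ j, ∑ k, ∑ l, R' i j k l * v i j * v k l := by
        rw [sq]
        simp only [Finset.sum_mul, Finset.mul_sum, ← Finset.sum_sub_distrib]
        refine Finset.sum_congr rfl fun i _ => Finset.sum_congr rfl fun j _ =>
          Finset.sum_congr rfl fun k _ => Finset.sum_congr rfl fun l _ => ?_
        ring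
      rw [h2]
      linarith)
  obtain ⟨ι, _, _, w, a, b, hB, hw⟩ := exists_own hs0 hpq (fun x i j k h1 h2 h3 h4 h5 h6 h7 h8 => by
    have h9 : mm p q j k = 0 := by simp [mm, h3, h4]
    rw [← hw0 x i j k, h9, hleg x i j k h1 h2 h3 h4 h5 h6 h7 h8]
    ring)
  have hR2 : ∀ i j k l, R' i j k l = mm p q i j * mm p q k l - ∑ x, w x i j * w x k l := by
    intro i j k l
    rw [hw i j k l, ← hw0 i j k l]
    ring
  refine ⟨E, p, q, ι, inferInstance, inferInstance, w, hdet, iso0_of_own hB, hR2, fun x y => ?_⟩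
  rw [← sec_frame, ← hR']
  have h1 : ∀ f : Fin (2 * n) → Fin (2 * n) → ℝ, vv f x y ^ 2 =
      ∑ i, ∑ j, ∑ k, ∑ l, (f i j * f k l) * x i * y j * x k * y l := by
    intro f
    unfold vv
    rw [sq]
    simp only [Finset.sum_mul, Finset.mul_sum]
    refine Finset.sum_congr rfl fun i _ => Finset.sum_congr rfl fun j _ =>
      Finset.sum_congr rfl fun k _ => Finset.sum_congr rfl fun l _ => ?_
    ring
  have h2 : ∑ k, vv (w k) x y ^ 2 =
      ∑ i, ∑ j, ∑ k, ∑ l, (∑ r, w r i j * w r k l) * x i * y j * x k * y l := by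
    simp only [h1, Finset.sum_mul]
    rw [Finset.sum_comm]
    refine Finset.sum_congr rfl fun i _ => ?_
    rw [Finset.sum_comm]
    refine Finset.sum_congr rfl fun j _ => ?_
    rw [Finset.sum_comm]
    refine Finset.sum_congr rfl fun k _ => ?_
    rw [Finset.sum_comm]
  rw [h2, h1 (mm p q)]
  unfold ev
  rw [← Finset.sum_sub_distrib, ← Finset.sum_neg_distrib]
  refine Finset.sum_congr rfl fun i _ => ?_
  rw [← Finset.sum_sub_distrib, ← Finset.sum_neg_distrib]
  refine Finset.sum_congr rfl fun j _ => ?_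
  rw [← Finset.sum_sub_distrib, ← Finset.sum_neg_distrib]
  refine Finset.sum_congr rfl fun k _ => ?_
  rw [← Finset.sum_sub_distrib, ← Finset.sum_neg_distrib]
  refine Finset.sum_congr rfl fun l _ => ?_
  rw [hR2 i j k l]
  ring

theorem gb_nonneg0 {n : ℕ} {ι : Type} [Fintype ι] [DecidableEq ι] {w : ι → Fin (2 * n) → Fin (2 * n) → ℝ} {p q : Fin (2 * n)}
    (h : Iso0 w p q)
    (hK : ∀ x y, vv (mm p q) x y ^ 2 ≤ ∑ k, vv (w k) x y ^ 2) (R : Arr (2 * n))
    (hR : ∀ i j k l, R i j k l = mm p q i j * mm p q k l - ∑ x, w x i j * w x k l) :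
    0 ≤ (-1) ^ n * gaussBonnet n R := by
  have h1 := gb_hh (w := w) (p := p) (q := q) R hR
  have h2 := core0 h hK
  rcases Nat.eq_zero_or_pos (Fintype.card ι) with hc | hc
  · exfalso
    have he : IsEmpty ι := Fintype.card_eq_zero_iff.1 hc
    have h3 := hK (Pi.single p 1 + 0) (Pi.single q 1 + 0)
    rw [vv_mm h.ne rfl rfl rfl rfl, Fintype.sum_empty] at h3
    norm_num at h3
  · have hc' : (0 : ℝ) < (Fintype.card ι : ℝ) := by exact_mod_cast hc
    refine (mul_nonneg_iff_of_pos_left hc').1 ?_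
    rw [h1]
    exact sub_nonneg.2 h2

/-- The pointwise theorem. -/
theorem ownLegs_nonneg {n : ℕ} {R : Arr (2 * n)} (hA : IsAlgCurv R) (hK : ∀ u v, ev R u v u v ≤ 0) (hS : OwnLegs R) :
    0 ≤ (-1) ^ n * Pool.Agent.H69Hopf.gaussBonnet n R := by
  obtain ⟨E, p, q, ι, _, _, w, hdet, hB, hR, hv⟩ := exists_dataO hA hS
  have h1 := gb_nonneg0 hB (fun x y => by
    have h2 := hv x y
    have h3 := hK (E.mulVec x) (E.mulVec y)
    linarith) (frameR R E) hR
  rw [gb_frameR, mul_left_comm] at h1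
  have h2 : 0 < E.det ^ 2 := by positivity
  exact nonneg_of_mul_nonneg_right h1 h2

/-- The pointwise theorem, strict form. -/
theorem ownLegs_pos {n : ℕ} {R : Arr (2 * n)} (hA : IsAlgCurv R)
    (hK : ∀ u v, LinearIndependent ℝ ![u, v] → ev R u v u v < 0) (hS : OwnLegs R) :
    0 < (-1) ^ n * Pool.Agent.H69Hopf.gaussBonnet n R := by
  obtain ⟨E, p, q, ι, _, _, w, hdet, hB, hR, hv⟩ := exists_dataO hA hS
  have h1 := core_lt0 hB (fun x y hxy => by
    have h2 := hv x y
    have h4 : LinearIndependent ℝ ![E.mulVec x, E.mulVec y] := by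
      have hinj : Function.Injective E.mulVec := Matrix.mulVec_injective_iff_isUnit.2
        ((Matrix.isUnit_iff_isUnit_det E).2 (isUnit_iff_ne_zero.2 hdet))
      have h5 := hxy.map' (Matrix.mulVecLin E) (LinearMap.ker_eq_bot.2 hinj)
      have h6 : (⇑(Matrix.mulVecLin E) ∘ ![x, y]) = ![E.mulVec x, E.mulVec y] := by
        funext i
        fin_cases i <;> rfl
      rwa [h6] at h5
    have h3 := hK (E.mulVec x) (E.mulVec y) h4
    linarith)
  have h2 := gb_hh (p := p) (q := q) (w := w) (frameR R E) hR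
  have h3 : 0 < (Fintype.card ι : ℝ) * ((-1) ^ n * Pool.Agent.H69Hopf.gaussBonnet n (frameR R E)) := by
    rw [h2]
    linarith
  have h4 : 0 < (-1) ^ n * Pool.Agent.H69Hopf.gaussBonnet n (frameR R E) :=
    (pos_iff_pos_of_mul_pos h3).1 (lt_of_le_of_ne (Nat.cast_nonneg _) fun h => by
      rw [← h, zero_mul] at h3
      exact lt_irrefl _ h3)
  rw [gb_frameR, mul_left_comm] at h4
  exact (pos_iff_pos_of_mul_pos h4).1 (by positivity)

end H39L
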